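import Pool.Agent.H95.Pur

set_option autoImplicit false

open Matrix Pool.Agent.H95.Pur

theorem Pool.Agent.Results.MP_5b3ffa_mp.Average.result :
    ∀ (d D : ℕ) (g : Fin D → Mt d), IsFrame g → ∀ N : ℝ, 0 < N →
      ∀ (K : ℕ) (M : Fin K → GL (Fin d) ℂ), (∀ k, M k ∈ cfo g) →
        ∑ k, (M k).valᴴ * (M k).val = 1 → ∀ ψ : Fin d → ℂ, star ψ ⬝ᵥ ψ = 1 →
          purity N g ψ ≤ ∑ k, prob (M k).val ψ *
            purity N g (((√(prob (M k).val ψ) : ℝ) : ℂ)⁻¹ • (M k).val *ᵥ ψ) :=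
  fun _ _ _ hg _ hN _ _ hM h _ hψ => main hg hN hM h hψ
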